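import Pool.Agent.Helper10.Ram5.Lib

set_option autoImplicit false

/-!
# Wirtinger inequality on the torus `ℍ / ν Hur`
-/

namespace Pool.Agent.Helper44.Ram5

open Pool.Agent.Helper10.Ram5
open MeasureTheory Topology Set
open scoped Quaternion

noncomputable section

local instance : MeasureSpace UnitAddCircle := ⟨AddCircle.haarAddCircle⟩

local instance : Measure.IsAddHaarMeasure (volume : Measure UnitAddCircle) :=
  inferInstanceAs (Measure.IsAddHaarMeasure AddCircle.haarAddCircle)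

local instance : IsProbabilityMeasure (volume : Measure UnitAddCircle) :=
  inferInstanceAs (IsProbabilityMeasure AddCircle.haarAddCircle)

abbrev V := Fin 4 → ℝ

/-- the unit cube -/
abbrev Q : Set V := Icc (0 : V) 1

/-- representative of a point of the torus in the cube -/
def rep (t : UnitAddTorus (Fin 4)) : V := (UnitAddTorus.measurableEquivPiIoc (0 : V) t).1

theorem measurable_rep : Measurable rep :=
  measurable_subtype_coe.comp (UnitAddTorus.measurableEquivPiIoc (0 : V)).measurable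

theorem rep_mem (t : UnitAddTorus (Fin 4)) : rep t ∈ Q := by
  have h := (UnitAddTorus.measurableEquivPiIoc (0 : V) t).2
  constructor
  · intro i
    exact (h i).1.le
  · intro i
    have := (h i).2
    have e : ((0 : V) i) + 1 = (1 : V) i := by simp
    rw [e] at this
    exact this

theorem rep_coe {x : V} (hx : ∀ i, x i ∈ Ioc ((0 : V) i) ((0 : V) i + 1)) :
    rep (fun i => (x i : UnitAddCircle)) = x := by
  have := (UnitAddTorus.measurableEquivPiIoc (0 : V)).apply_symm_apply ⟨x, hx⟩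
  have h2 := congrArg Subtype.val this
  exact h2

theorem setQ : {x : V | ∀ i, x i ∈ Ioc ((0 : V) i) ((0 : V) i + 1)} =ᵐ[volume] Q := by
  have h : {x : V | ∀ i, x i ∈ Ioc ((0 : V) i) ((0 : V) i + 1)} =
      Set.pi univ fun i => Ioc ((0 : V) i) ((1 : V) i) := by
    ext x
    simp
  rw [h]
  exact Measure.univ_pi_Ioc_ae_eq_Icc

theorem integral_torus {E : Type*} [NormedAddCommGroup E] [NormedSpace ℝ E]
    (F : UnitAddTorus (Fin 4) → E) (F' : V → E)
    (h : ∀ x : V, (∀ i, x i ∈ Ioc ((0 : V) i) ((0 : V) i + 1)) →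
      F (fun i => (x i : UnitAddCircle)) = F' x) :
    ∫ t, F t = ∫ x in Q, F' x := by
  rw [UnitAddTorus.integral_preimage F 0, ← setIntegral_congr_set setQ]
  apply setIntegral_congr_fun
  · exact MeasurableSet.univ_pi' (fun i => measurableSet_Ioc)
  · intro x hx
    exact h x hx

/-- the characters -/
def ch (n : Fin 4 → ℤ) (x : V) : ℂ :=
  Complex.exp (-(2 * Real.pi * Complex.I) * ∑ i, (n i : ℂ) * (x i : ℂ))

theorem mF (n : Fin 4 → ℤ) (x : V) :
    UnitAddTorus.mFourier (-n) (fun i => (x i : UnitAddCircle)) = ch n x := by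
  unfold UnitAddTorus.mFourier ch
  simp only [ContinuousMap.coe_mk, fourier_coe_apply]
  rw [← Complex.exp_sum, Finset.mul_sum]
  congr 1
  apply Finset.sum_congr rfl
  intro i _
  simp
  ring

/-- Fourier coefficients -/
def co (G : V → ℂ) (n : Fin 4 → ℤ) : ℂ := ∫ x in Q, ch n x * G x

theorem parseval {G : V → ℂ} (hG : Continuous G) :
    HasSum (fun n => ‖co G n‖ ^ 2) (∫ x in Q, ‖G x‖ ^ 2) := by
  obtain ⟨C, hC⟩ := (isCompact_Icc : IsCompact Q).exists_bound_of_continuousOn hG.continuousOn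
  have hm : MemLp (fun t => G (rep t)) 2 (volume : Measure (UnitAddTorus (Fin 4))) :=
    MemLp.of_bound (hG.measurable.comp measurable_rep).aestronglyMeasurable C
      (Filter.Eventually.of_forall fun t => hC _ (rep_mem t))
  have h1 := UnitAddTorus.hasSum_sq_mFourierCoeff hm.toLp
  have e1 : ∀ n, UnitAddTorus.mFourierCoeff hm.toLp n = co G n := by
    intro n
    unfold UnitAddTorus.mFourierCoeff co
    have : ∫ t, UnitAddTorus.mFourier (-n) t • (hm.toLp : UnitAddTorus (Fin 4) → ℂ) t =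
        ∫ t, UnitAddTorus.mFourier (-n) t • G (rep t) := by
      apply integral_congr_ae
      filter_upwards [hm.coeFn_toLp] with t ht
      rw [ht]
    rw [this]
    apply integral_torus
    intro x hx
    rw [rep_coe hx, mF, smul_eq_mul]
  have e2 : ∫ t, ‖(hm.toLp : UnitAddTorus (Fin 4) → ℂ) t‖ ^ 2 = ∫ x in Q, ‖G x‖ ^ 2 := by
    have : ∫ t, ‖(hm.toLp : UnitAddTorus (Fin 4) → ℂ) t‖ ^ 2 = ∫ t, ‖G (rep t)‖ ^ 2 := by
      apply integral_congr_ae
      filter_upwards [hm.coeFn_toLp] with t ht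
      rw [ht]
    rw [this]
    apply integral_torus
    intro x hx
    rw [rep_coe hx]
  simp only [e1] at h1
  rw [e2] at h1
  exact h1

/-- integral of a derivative of a periodic function -/
theorem int_deriv {H : V → ℂ} (hH : ContDiff ℝ 1 H) (i : Fin 4)
    (hp : ∀ x, H (x + Pi.single i 1) = H x) :
    ∫ x in Q, fderiv ℝ H x (Pi.single i 1) = 0 := by
  have hc : Continuous (fun x => fderiv ℝ H x (Pi.single i 1)) :=
    (hH.continuous_fderiv one_ne_zero).clm_apply continuous_const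
  have hs : ∀ x : V, ∑ j, (if j = i then fderiv ℝ H x else 0) (Pi.single j 1) =
      fderiv ℝ H x (Pi.single i 1) := by
    intro x
    rw [Finset.sum_eq_single i]
    · rw [if_pos rfl]
    · intro j _ hj
      rw [if_neg hj]
      rfl
    · intro h
      exact absurd (Finset.mem_univ i) h
  have key := integral_divergence_of_hasFDerivAt_off_countable' (n := 3) (E := ℂ)
    (0 : V) 1 (by intro j; simp) (fun j => if j = i then H else fun _ => 0)
    (fun j x => if j = i then fderiv ℝ H x else 0) ∅ countable_empty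
    (by
      intro j
      by_cases hj : j = i
      · simp only [if_pos hj]
        exact hH.continuous.continuousOn
      · simp only [if_neg hj]
        exact continuousOn_const)
    (by
      intro x _ j
      by_cases hj : j = i
      · simp only [if_pos hj]
        exact (hH.differentiable (by norm_num) x).hasFDerivAt
      · simp only [if_neg hj]
        exact hasFDerivAt_const _ _)
    (by
      simp only [hs]
      exact hc.continuousOn.integrableOn_compact isCompact_Icc)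
  simp only [hs] at key
  rw [key]
  apply Finset.sum_eq_zero
  intro j _
  by_cases hj : j = i
  · subst hj
    rw [sub_eq_zero]
    congr 1
    funext y
    simp only [if_true]
    have e : (j.insertNth ((1 : V) j) y : V) = (j.insertNth ((0 : V) j) y : V) + Pi.single j 1 := by
      funext l
      refine Fin.succAboveCases j ?_ ?_ l
      · simp
      · intro l
        simp
    exact (congrArg H e).trans (hp _)
  · simp only [if_neg hj]
    simp

theorem contDiff_ch (n : Fin 4 → ℤ) : ContDiff ℝ 1 (ch n) := by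
  unfold ch
  apply ContDiff.cexp
  apply contDiff_const.mul
  apply ContDiff.sum
  intro i _
  apply contDiff_const.mul
  exact Complex.ofRealCLM.contDiff.comp (contDiff_apply ℝ ℝ i)

theorem deriv_ch (n : Fin 4 → ℤ) (i : Fin 4) (x : V) :
    fderiv ℝ (ch n) x (Pi.single i 1) = -(2 * Real.pi * Complex.I) * n i * ch n x := by
  have h1 : HasFDerivAt (fun x : V => ∑ i, (n i : ℂ) * (x i : ℂ))
      (∑ i, (n i : ℂ) • (Complex.ofRealCLM.comp (ContinuousLinearMap.proj (R := ℝ)
        (φ := fun _ : Fin 4 => ℝ) i))) x := by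
    apply HasFDerivAt.fun_sum
    intro i _
    exact ((Complex.ofRealCLM.comp (ContinuousLinearMap.proj (R := ℝ)
        (φ := fun _ : Fin 4 => ℝ) i)).hasFDerivAt).const_mul (n i : ℂ)
  have h2 := (h1.const_mul (-(2 * Real.pi * Complex.I))).cexp
  have h3 : fderiv ℝ (ch n) x = _ := h2.fderiv
  rw [h3]
  have h4 : (∑ j, (n j : ℂ) • (Complex.ofRealCLM.comp (ContinuousLinearMap.proj (R := ℝ)
        (φ := fun _ : Fin 4 => ℝ) j)) : V →L[ℝ] ℂ) (Pi.single i 1) = n i := by
    rw [sum_apply, Finset.sum_eq_single i]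
    · simp
    · intro j _ hj
      simp [hj]
    · intro h
      exact absurd (Finset.mem_univ i) h
  rw [smul_apply, smul_apply, h4]
  unfold ch
  simp only [smul_eq_mul]
  ring

theorem ch_per (n : Fin 4 → ℤ) (i : Fin 4) (x : V) : ch n (x + Pi.single i 1) = ch n x := by
  unfold ch
  have : ∑ j, (n j : ℂ) * (((x + Pi.single i 1 : V) j : ℝ) : ℂ) =
      (∑ j, (n j : ℂ) * (x j : ℂ)) + n i := by
    simp only [Pi.add_apply, Complex.ofReal_add, mul_add, Finset.sum_add_distrib]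
    congr 1
    rw [Finset.sum_eq_single i]
    · simp
    · intro j _ hj
      simp [hj]
    · intro h
      exact absurd (Finset.mem_univ i) h
  rw [this, mul_add, Complex.exp_add]
  have h2 : Complex.exp (-(2 * Real.pi * Complex.I) * n i) = 1 := by
    rw [Complex.exp_eq_one_iff]
    exact ⟨-n i, by push_cast; ring⟩
  rw [h2, mul_one]

/-- coefficient of a derivative -/
theorem co_deriv {G : V → ℂ} (hG : ContDiff ℝ 1 G) (i : Fin 4)
    (hp : ∀ x, G (x + Pi.single i 1) = G x) (n : Fin 4 → ℤ) :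
    co (fun x => fderiv ℝ G x (Pi.single i 1)) n = 2 * Real.pi * Complex.I * n i * co G n := by
  have h1 := int_deriv (H := fun x => ch n x * G x) ((contDiff_ch n).mul hG) i
    (fun x => by rw [ch_per, hp])
  have e : ∀ x, fderiv ℝ (fun x => ch n x * G x) x (Pi.single i 1) =
      ch n x * fderiv ℝ G x (Pi.single i 1) - (2 * Real.pi * Complex.I * n i) * (ch n x * G x) := by
    intro x
    have d1 : DifferentiableAt ℝ (ch n) x := (contDiff_ch n).differentiable (by norm_num) x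
    have d2 : DifferentiableAt ℝ G x := hG.differentiable (by norm_num) x
    rw [fderiv_fun_mul d1 d2]
    simp only [add_apply, smul_apply, smul_eq_mul]
    rw [deriv_ch]
    ring
  simp only [e] at h1
  have i1 : IntegrableOn (fun x => ch n x * fderiv ℝ G x (Pi.single i 1)) Q := by
    apply Continuous.integrableOn_Icc
    exact (contDiff_ch n).continuous.mul
      ((hG.continuous_fderiv one_ne_zero).clm_apply continuous_const)
  have i2 : IntegrableOn (fun x => (2 * Real.pi * Complex.I * n i) * (ch n x * G x)) Q := by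
    apply Continuous.integrableOn_Icc
    exact continuous_const.mul ((contDiff_ch n).continuous.mul hG.continuous)
  rw [integral_sub i1 i2, integral_const_mul, sub_eq_zero] at h1
  exact h1

theorem co_lin {a b c d : V → ℂ} (ha : Continuous a) (hb : Continuous b) (hc : Continuous c)
    (hd : Continuous d) (n : Fin 4 → ℤ) :
    co (fun x => 2 * a x - b x - c x - d x) n = 2 * co a n - co b n - co c n - co d n := by
  have hn := (contDiff_ch n).continuous
  have ia : IntegrableOn (fun x => ch n x * a x) Q := (hn.mul ha).integrableOn_Icc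
  have ib : IntegrableOn (fun x => ch n x * b x) Q := (hn.mul hb).integrableOn_Icc
  have ic : IntegrableOn (fun x => ch n x * c x) Q := (hn.mul hc).integrableOn_Icc
  have id : IntegrableOn (fun x => ch n x * d x) Q := (hn.mul hd).integrableOn_Icc
  have i1 : Integrable (fun x => 2 * (ch n x * a x)) (volume.restrict Q) := ia.const_mul 2
  have i2 : Integrable (fun x => 2 * (ch n x * a x) - ch n x * b x) (volume.restrict Q) :=
    i1.sub ib
  have i3 : Integrable (fun x => 2 * (ch n x * a x) - ch n x * b x - ch n x * c x)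
    (volume.restrict Q) := i2.sub ic
  have e1 := integral_sub i3 id
  have e2 := integral_sub i2 ic
  have e3 := integral_sub i1 ib
  have e4 : ∫ x in Q, 2 * (ch n x * a x) = 2 * ∫ x in Q, ch n x * a x := integral_const_mul _ _
  unfold co
  rw [← e4, ← e3, ← e2, ← e1]
  congr 1
  funext x
  ring

/-- the arithmetic of the dual lattice -/
theorem dual_ge (n : Fin 4 → ℤ) (hn : n ≠ 0) :
    2 ≤ (n 0) ^ 2 + (n 1) ^ 2 + (n 2) ^ 2 + (2 * n 3 - n 0 - n 1 - n 2) ^ 2 := by
  by_contra hcon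
  push Not at hcon
  have h0 : (n 0) ^ 2 ≤ 1 := by nlinarith [sq_nonneg (n 1), sq_nonneg (n 2), sq_nonneg (2 * n 3 - n 0 - n 1 - n 2)]
  have h1 : (n 1) ^ 2 ≤ 1 := by nlinarith [sq_nonneg (n 0), sq_nonneg (n 2), sq_nonneg (2 * n 3 - n 0 - n 1 - n 2)]
  have h2 : (n 2) ^ 2 ≤ 1 := by nlinarith [sq_nonneg (n 1), sq_nonneg (n 0), sq_nonneg (2 * n 3 - n 0 - n 1 - n 2)]
  have h3 : (2 * n 3 - n 0 - n 1 - n 2) ^ 2 ≤ 1 := by nlinarith [sq_nonneg (n 1), sq_nonneg (n 2), sq_nonneg (n 0)]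
  have b0 := abs_le.1 ((sq_le_one_iff_abs_le_one _).1 h0)
  have b1 := abs_le.1 ((sq_le_one_iff_abs_le_one _).1 h1)
  have b2 := abs_le.1 ((sq_le_one_iff_abs_le_one _).1 h2)
  have b3 := abs_le.1 ((sq_le_one_iff_abs_le_one _).1 h3)
  apply hn
  obtain ⟨l0, u0⟩ := b0
  obtain ⟨l1, u1⟩ := b1
  obtain ⟨l2, u2⟩ := b2
  obtain ⟨l3, u3⟩ := b3
  have e0 : n 0 = -1 ∨ n 0 = 0 ∨ n 0 = 1 := by omega
  have e1 : n 1 = -1 ∨ n 1 = 0 ∨ n 1 = 1 := by omega
  have e2 : n 2 = -1 ∨ n 2 = 0 ∨ n 2 = 1 := by omega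
  have e3 : 2 * n 3 - n 0 - n 1 - n 2 = -1 ∨ 2 * n 3 - n 0 - n 1 - n 2 = 0 ∨
      2 * n 3 - n 0 - n 1 - n 2 = 1 := by omega
  have hz : n 0 = 0 ∧ n 1 = 0 ∧ n 2 = 0 ∧ n 3 = 0 := by
    rcases e0 with e0 | e0 | e0 <;> rcases e1 with e1 | e1 | e1 <;> rcases e2 with e2 | e2 | e2 <;>
      rcases e3 with e3 | e3 | e3 <;> rw [e0, e1, e2] at e3 hcon <;>
      first
        | (exfalso; omega)
        | (refine ⟨e0, e1, e2, ?_⟩; omega)
        | (exfalso; rw [e3] at hcon; norm_num at hcon)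
  obtain ⟨z0, z1, z2, z3⟩ := hz
  funext i
  fin_cases i
  · exact z0
  · exact z1
  · exact z2
  · exact z3

/-- the inequality on the cube -/
theorem cube {G G3 : V → ℂ} (hG : ContDiff ℝ 1 G) (hp : ∀ i x, G (x + Pi.single i 1) = G x)
    (hG3 : ∀ x, G3 x = 2 * fderiv ℝ G x (Pi.single 3 1) - fderiv ℝ G x (Pi.single 0 1)
      - fderiv ℝ G x (Pi.single 1 1) - fderiv ℝ G x (Pi.single 2 1))
    (hm : ∫ x in Q, G x = 0) :
    8 * Real.pi ^ 2 * ∫ x in Q, ‖G x‖ ^ 2 ≤
      ∫ x in Q, (‖fderiv ℝ G x (Pi.single 0 1)‖ ^ 2 + ‖fderiv ℝ G x (Pi.single 1 1)‖ ^ 2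
        + ‖fderiv ℝ G x (Pi.single 2 1)‖ ^ 2 + ‖G3 x‖ ^ 2) := by
  have hc : ∀ i : Fin 4, Continuous (fun x => fderiv ℝ G x (Pi.single i 1)) := fun i =>
    (hG.continuous_fderiv one_ne_zero).clm_apply continuous_const
  have hG3' : G3 = fun x => 2 * fderiv ℝ G x (Pi.single 3 1) - fderiv ℝ G x (Pi.single 0 1)
      - fderiv ℝ G x (Pi.single 1 1) - fderiv ℝ G x (Pi.single 2 1) := funext hG3
  have hc3 : Continuous G3 := by
    rw [hG3']
    exact (((continuous_const.mul (hc 3)).sub (hc 0)).sub (hc 1)).sub (hc 2)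
  have p := parseval hG.continuous
  have p0 := parseval (hc 0)
  have p1 := parseval (hc 1)
  have p2 := parseval (hc 2)
  have p3 := parseval hc3
  have hco0 : co G 0 = 0 := by
    unfold co ch
    simpa using hm
  have key : ∀ n : Fin 4 → ℤ, 8 * Real.pi ^ 2 * ‖co G n‖ ^ 2 ≤
      ‖co (fun x => fderiv ℝ G x (Pi.single 0 1)) n‖ ^ 2
      + ‖co (fun x => fderiv ℝ G x (Pi.single 1 1)) n‖ ^ 2
      + ‖co (fun x => fderiv ℝ G x (Pi.single 2 1)) n‖ ^ 2 + ‖co G3 n‖ ^ 2 := by
    intro n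
    have e3 : co G3 n = 2 * Real.pi * Complex.I * ((2 * n 3 - n 0 - n 1 - n 2 : ℤ) : ℂ) * co G n := by
      rw [hG3', co_lin (hc 3) (hc 0) (hc 1) (hc 2), co_deriv hG 3 (hp 3), co_deriv hG 0 (hp 0),
        co_deriv hG 1 (hp 1), co_deriv hG 2 (hp 2)]
      push_cast
      ring
    have nrm : ∀ m : ℤ, ‖2 * Real.pi * Complex.I * (m : ℂ) * co G n‖ ^ 2 =
        4 * Real.pi ^ 2 * (m : ℝ) ^ 2 * ‖co G n‖ ^ 2 := by
      intro m
      rw [norm_mul, norm_mul, norm_mul, norm_mul, Complex.norm_I]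
      simp only [Complex.norm_real, Complex.norm_ofNat, Complex.norm_intCast, Real.norm_eq_abs]
      rw [mul_one, mul_pow, mul_pow, mul_pow, sq_abs, sq_abs]
      norm_num
    rw [e3, co_deriv hG 0 (hp 0), co_deriv hG 1 (hp 1), co_deriv hG 2 (hp 2), nrm, nrm, nrm, nrm]
    by_cases hn : n = 0
    · rw [hn, hco0]
      simp
    · have h2 := dual_ge n hn
      have h3 : (2 : ℝ) ≤ (n 0 : ℝ) ^ 2 + (n 1 : ℝ) ^ 2 + (n 2 : ℝ) ^ 2
          + ((2 * n 3 - n 0 - n 1 - n 2 : ℤ) : ℝ) ^ 2 := by exact_mod_cast h2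
      have h4 : 0 ≤ 4 * Real.pi ^ 2 * ‖co G n‖ ^ 2 := by positivity
      nlinarith [mul_le_mul_of_nonneg_left h3 h4]
  have h := hasSum_le key (p.mul_left (8 * Real.pi ^ 2)) (((p0.add p1).add p2).add p3)
  have c0 : ∀ {F : V → ℂ}, Continuous F → IntegrableOn (fun x => ‖F x‖ ^ 2) Q := fun hF =>
    (hF.norm.pow 2).integrableOn_Icc
  have i1 : Integrable (fun x => ‖fderiv ℝ G x (Pi.single 0 1)‖ ^ 2
      + ‖fderiv ℝ G x (Pi.single 1 1)‖ ^ 2) (volume.restrict Q) := (c0 (hc 0)).add (c0 (hc 1))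
  have i2 : Integrable (fun x => ‖fderiv ℝ G x (Pi.single 0 1)‖ ^ 2
      + ‖fderiv ℝ G x (Pi.single 1 1)‖ ^ 2 + ‖fderiv ℝ G x (Pi.single 2 1)‖ ^ 2)
      (volume.restrict Q) := i1.add (c0 (hc 2))
  have e1 := integral_add (c0 (hc 0)) (c0 (hc 1))
  have e2 := integral_add i1 (c0 (hc 2))
  have e3 := integral_add i2 (c0 hc3)
  rw [e3, e2, e1]
  exact h

theorem isOpen_UH : IsOpen UH := isOpen_lt continuous_const continuous_snd

/-- quaternion units -/
def q0 : ℍ[ℝ] := ⟨1, 0, 0, 0⟩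

def q1 : ℍ[ℝ] := ⟨0, 1, 0, 0⟩

def q2 : ℍ[ℝ] := ⟨0, 0, 1, 0⟩

def q3 : ℍ[ℝ] := ⟨0, 0, 0, 1⟩

def qh : ℍ[ℝ] := ⟨1 / 2, 1 / 2, 1 / 2, 1 / 2⟩

theorem q0re : q0.re = 1 := rfl
theorem q0i : q0.imI = 0 := rfl
theorem q0j : q0.imJ = 0 := rfl
theorem q0k : q0.imK = 0 := rfl
theorem q1re : q1.re = 0 := rfl
theorem q1i : q1.imI = 1 := rfl
theorem q1j : q1.imJ = 0 := rfl
theorem q1k : q1.imK = 0 := rfl
theorem q2re : q2.re = 0 := rfl
theorem q2i : q2.imI = 0 := rfl
theorem q2j : q2.imJ = 1 := rfl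
theorem q2k : q2.imK = 0 := rfl
theorem q3re : q3.re = 0 := rfl
theorem q3i : q3.imI = 0 := rfl
theorem q3j : q3.imJ = 0 := rfl
theorem q3k : q3.imK = 1 := rfl
theorem qhre : qh.re = 1 / 2 := rfl
theorem qhi : qh.imI = 1 / 2 := rfl
theorem qhj : qh.imJ = 1 / 2 := rfl
theorem qhk : qh.imK = 1 / 2 := rfl

theorem dir0 : dir 0 = (q0, 0) := rfl
theorem dir1 : dir 1 = (q1, 0) := rfl
theorem dir2 : dir 2 = (q2, 0) := rfl
theorem dir3 : dir 3 = (q3, 0) := rfl

/-- `par` as a continuous linear map -/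
def parL : V →L[ℝ] ℍ[ℝ] :=
  LinearMap.toContinuousLinearMap
    { toFun := fun x => par x
      map_add' := fun x y => by
        apply Quaternion.ext
        · change (x + y) 0 + (x + y) 3 / 2 = (x 0 + x 3 / 2) + (y 0 + y 3 / 2)
          simp only [Pi.add_apply]; ring
        · change (x + y) 1 + (x + y) 3 / 2 = (x 1 + x 3 / 2) + (y 1 + y 3 / 2)
          simp only [Pi.add_apply]; ring
        · change (x + y) 2 + (x + y) 3 / 2 = (x 2 + x 3 / 2) + (y 2 + y 3 / 2)
          simp only [Pi.add_apply]; ring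
        · change (x + y) 3 / 2 = x 3 / 2 + y 3 / 2
          simp only [Pi.add_apply]; ring
      map_smul' := fun c x => by
        apply Quaternion.ext
        · change (c • x) 0 + (c • x) 3 / 2 = c * (x 0 + x 3 / 2)
          simp only [Pi.smul_apply, smul_eq_mul]; ring
        · change (c • x) 1 + (c • x) 3 / 2 = c * (x 1 + x 3 / 2)
          simp only [Pi.smul_apply, smul_eq_mul]; ring
        · change (c • x) 2 + (c • x) 3 / 2 = c * (x 2 + x 3 / 2)
          simp only [Pi.smul_apply, smul_eq_mul]; ring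
        · change (c • x) 3 / 2 = c * (x 3 / 2)
          simp only [Pi.smul_apply, smul_eq_mul]; ring }

theorem parL_apply (x : V) : parL x = par x := rfl

theorem par0 : par (Pi.single 0 1) = q0 := by
  unfold par q0; ext <;> simp

theorem par1 : par (Pi.single 1 1) = q1 := by
  unfold par q1; ext <;> simp

theorem par2 : par (Pi.single 2 1) = q2 := by
  unfold par q2; ext <;> simp

theorem par3 : par (Pi.single 3 1) = qh := by
  unfold par qh; ext <;> simp

theorem par_mem (i : Fin 4) : par (Pi.single i 1) ∈ Hur := by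
  fin_cases i
  · have : par (Pi.single 0 1) = 1 := by
      rw [par0]; rfl
    exact this ▸ Hur.one_mem
  · rw [show (par (Pi.single ((fun i => i) (⟨1, by norm_num⟩ : Fin 4)) 1)) = q1 from par1]
    exact Subring.subset_closure (Or.inl rfl)
  · rw [show (par (Pi.single ((fun i => i) (⟨2, by norm_num⟩ : Fin 4)) 1)) = q2 from par2]
    exact Subring.subset_closure (Or.inr (Or.inl rfl))
  · rw [show (par (Pi.single ((fun i => i) (⟨3, by norm_num⟩ : Fin 4)) 1)) = qh from par3]
    exact Subring.subset_closure (Or.inr (Or.inr rfl))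

/-- the parametrisation -/
def cp (ν : ℍ[ℝ]) (r : ℝ) (x : V) : Pt := (ν * par x, r)

theorem cp_hasFDerivAt (ν : ℍ[ℝ]) (r : ℝ) (x : V) :
    HasFDerivAt (cp ν r) (((ContinuousLinearMap.mul ℝ ℍ[ℝ] ν).comp parL).prod
      (0 : V →L[ℝ] ℝ)) x := by
  have h1 : HasFDerivAt (fun x => ν * par x) ((ContinuousLinearMap.mul ℝ ℍ[ℝ] ν).comp parL) x :=
    ((ContinuousLinearMap.mul ℝ ℍ[ℝ] ν).comp parL).hasFDerivAt
  exact h1.prodMk (hasFDerivAt_const r x)

theorem cp_contDiff (ν : ℍ[ℝ]) (r : ℝ) : ContDiff ℝ 1 (cp ν r) := by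
  have h1 : ContDiff ℝ 1 (fun x => ν * par x) :=
    ((ContinuousLinearMap.mul ℝ ℍ[ℝ] ν).comp parL).contDiff
  exact h1.prodMk contDiff_const

theorem q_dec (q : ℍ[ℝ]) : q = q.re • q0 + q.imI • q1 + q.imJ • q2 + q.imK • q3 := by
  apply Quaternion.ext
  · simp only [Quaternion.re_add, Quaternion.re_smul, q0re, q1re, q2re, q3re, smul_eq_mul]; ring
  · simp only [Quaternion.imI_add, Quaternion.imI_smul, q0i, q1i, q2i, q3i, smul_eq_mul]; ring
  · simp only [Quaternion.imJ_add, Quaternion.imJ_smul, q0j, q1j, q2j, q3j, smul_eq_mul]; ring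
  · simp only [Quaternion.imK_add, Quaternion.imK_smul, q0k, q1k, q2k, q3k, smul_eq_mul]; ring

theorem q3_eq : q3 = (2 : ℝ) • qh - q0 - q1 - q2 := by
  apply Quaternion.ext
  · simp only [Quaternion.re_sub, Quaternion.re_smul, q0re, q1re, q2re, q3re, qhre, smul_eq_mul]
    norm_num
  · simp only [Quaternion.imI_sub, Quaternion.imI_smul, q0i, q1i, q2i, q3i, qhi, smul_eq_mul]
    norm_num
  · simp only [Quaternion.imJ_sub, Quaternion.imJ_smul, q0j, q1j, q2j, q3j, qhj, smul_eq_mul]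
    norm_num
  · simp only [Quaternion.imK_sub, Quaternion.imK_smul, q0k, q1k, q2k, q3k, qhk, smul_eq_mul]
    norm_num

theorem lin_dir {u : Pt → ℂ} (p : Pt) (q : ℍ[ℝ]) :
    fderiv ℝ u p (q, 0) = (q.re : ℂ) * pd (dir 0) u p + (q.imI : ℂ) * pd (dir 1) u p
      + (q.imJ : ℂ) * pd (dir 2) u p + (q.imK : ℂ) * pd (dir 3) u p := by
  have : ((q, 0) : Pt) = q.re • dir 0 + q.imI • dir 1 + q.imJ • dir 2 + q.imK • dir 3 := by
    rw [dir0, dir1, dir2, dir3]
    apply Prod.ext
    · exact q_dec q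
    · simp
  rw [this, map_add, map_add, map_add, map_smul, map_smul, map_smul, map_smul]
  unfold pd
  simp

theorem wirtinger {ν : ℍ[ℝ]} (hν0 : ν ≠ 0) {u : Pt → ℂ} (hu : ContDiffOn ℝ 1 u UH)
    (hper : ∀ x ∈ Hur, ∀ p ∈ UH, u (p.1 + ν * x, p.2) = u p) {r : ℝ} (hr : 0 < r)
    (hmean : ∫ x in Set.Icc (0 : Fin 4 → ℝ) 1, u (ν * par x, r) = 0) :
    ENNReal.ofReal (8 * Real.pi ^ 2 / ‖ν‖ ^ 2) *
        cellInt ν (fun p => ENNReal.ofReal (‖u p‖ ^ 2)) r
      ≤ cellInt ν (fun p => ENNReal.ofReal (∑ k : Fin 4, ‖pd (dir k.castSucc) u p‖ ^ 2)) r := by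
  have hν : 0 < ‖ν‖ ^ 2 := by positivity
  have hmem : ∀ x, cp ν r x ∈ UH := fun x => hr
  set G : V → ℂ := fun x => u (cp ν r x) with hGdef
  have hG : ContDiff ℝ 1 G := hu.comp_contDiff (cp_contDiff ν r) hmem
  have hp : ∀ i x, G (x + Pi.single i 1) = G x := by
    intro i x
    have := hper _ (par_mem i) (cp ν r x) (hmem x)
    simp only [hGdef]
    rw [← this]
    congr 1
    unfold cp
    simp only
    rw [← parL_apply, map_add, mul_add]
    rfl
  have hdu : ∀ p ∈ UH, HasFDerivAt u (fderiv ℝ u p) p := fun p hp =>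
    ((hu.contDiffAt (isOpen_UH.mem_nhds hp)).differentiableAt (by norm_num)).hasFDerivAt
  have hdG : ∀ x v, fderiv ℝ G x v = fderiv ℝ u (cp ν r x) (ν * par v, 0) := by
    intro x v
    have h1 := (hdu _ (hmem x)).comp x (cp_hasFDerivAt ν r x)
    have h2 : fderiv ℝ G x = _ := h1.fderiv
    rw [h2]
    rfl
  have hcu : ContinuousOn (fderiv ℝ u) UH := hu.continuousOn_fderiv_of_isOpen isOpen_UH le_rfl
  have hcd : ∀ w : Pt, Continuous (fun x => fderiv ℝ u (cp ν r x) w) := by
    intro w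
    have h1 : Continuous (fun x => fderiv ℝ u (cp ν r x)) :=
      hcu.comp_continuous (cp_contDiff ν r).continuous hmem
    exact h1.clm_apply continuous_const
  set G3 : V → ℂ := fun x => fderiv ℝ u (cp ν r x) (ν * q3, 0) with hG3def
  have hG3 : ∀ x, G3 x = 2 * fderiv ℝ G x (Pi.single 3 1) - fderiv ℝ G x (Pi.single 0 1)
      - fderiv ℝ G x (Pi.single 1 1) - fderiv ℝ G x (Pi.single 2 1) := by
    intro x
    rw [hdG, hdG, hdG, hdG, par0, par1, par2, par3]
    simp only [hG3def]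
    have e : ((ν * q3, 0) : Pt) = (2 : ℝ) • ((ν * qh, 0) : Pt)
        - (ν * q0, 0) - (ν * q1, 0) - (ν * q2, 0) := by
      apply Prod.ext
      · change ν * q3 = (2 : ℝ) • (ν * qh) - ν * q0 - ν * q1 - ν * q2
        rw [q3_eq, mul_sub, mul_sub, mul_sub, mul_smul_comm]
      · simp
    rw [e, map_sub, map_sub, map_sub, map_smul]
    simp
  have key := cube hG hp hG3 hmean
  have hpt : ∀ x, ‖fderiv ℝ G x (Pi.single 0 1)‖ ^ 2 + ‖fderiv ℝ G x (Pi.single 1 1)‖ ^ 2
        + ‖fderiv ℝ G x (Pi.single 2 1)‖ ^ 2 + ‖G3 x‖ ^ 2 =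
      ‖ν‖ ^ 2 * ∑ k : Fin 4, ‖pd (dir k.castSucc) u (cp ν r x)‖ ^ 2 := by
    intro x
    rw [hdG, hdG, hdG, par0, par1, par2]
    simp only [hG3def]
    rw [lin_dir, lin_dir, lin_dir, lin_dir, Fin.sum_univ_four]
    have hn : ‖ν‖ ^ 2 = ν.re ^ 2 + ν.imI ^ 2 + ν.imJ ^ 2 + ν.imK ^ 2 := by
      rw [sq, ← Quaternion.normSq_eq_norm_mul_self, Quaternion.normSq_def']
    have f0 : (Fin.castSucc (0 : Fin 4)) = (0 : Fin 5) := rfl
    have f1 : (Fin.castSucc (1 : Fin 4)) = (1 : Fin 5) := rfl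
    have f2 : (Fin.castSucc (2 : Fin 4)) = (2 : Fin 5) := rfl
    have f3 : (Fin.castSucc (3 : Fin 4)) = (3 : Fin 5) := rfl
    rw [hn, f0, f1, f2, f3]
    generalize pd (dir 0) u (cp ν r x) = w0
    generalize pd (dir 1) u (cp ν r x) = w1
    generalize pd (dir 2) u (cp ν r x) = w2
    generalize pd (dir 3) u (cp ν r x) = w3
    simp only [← Complex.normSq_eq_norm_sq, Complex.normSq_apply,
      Complex.add_re, Complex.add_im, Complex.mul_re, Complex.mul_im, Complex.ofReal_re,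
      Complex.ofReal_im, Quaternion.re_mul, Quaternion.imI_mul, Quaternion.imJ_mul,
      Quaternion.imK_mul, q0re, q0i, q0j, q0k, q1re, q1i, q1j, q1k, q2re, q2i, q2j, q2k,
      q3re, q3i, q3j, q3k]
    ring
  simp only [hpt] at key
  rw [integral_const_mul] at key
  have hk : Continuous (fun x => ∑ k : Fin 4, ‖pd (dir k.castSucc) u (cp ν r x)‖ ^ 2) := by
    apply continuous_finsetSum
    intro k _
    exact ((hcd _).norm.pow 2)
  have i1 : IntegrableOn (fun x => ‖G x‖ ^ 2) Q := (hG.continuous.norm.pow 2).integrableOn_Icc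
  have i2 : IntegrableOn (fun x => ∑ k : Fin 4, ‖pd (dir k.castSucc) u (cp ν r x)‖ ^ 2) Q :=
    hk.integrableOn_Icc
  have l1 : cellInt ν (fun p => ENNReal.ofReal (‖u p‖ ^ 2)) r =
      ENNReal.ofReal (∫ x in Q, ‖G x‖ ^ 2) := by
    rw [ofReal_integral_eq_lintegral_ofReal i1 (Filter.Eventually.of_forall fun x => by positivity)]
    rfl
  have l2 : cellInt ν (fun p => ENNReal.ofReal (∑ k : Fin 4, ‖pd (dir k.castSucc) u p‖ ^ 2)) r =
      ENNReal.ofReal (∫ x in Q, ∑ k : Fin 4, ‖pd (dir k.castSucc) u (cp ν r x)‖ ^ 2) := by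
    rw [ofReal_integral_eq_lintegral_ofReal i2 (Filter.Eventually.of_forall fun x => by positivity)]
    rfl
  rw [l1, l2, ← ENNReal.ofReal_mul (by positivity)]
  apply ENNReal.ofReal_le_ofReal
  rw [div_mul_eq_mul_div, div_le_iff₀ hν]
  linarith

end

end Pool.Agent.Helper44.Ram5
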